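import Pool.Agent.helper79.SX.Spec

set_option autoImplicit false

open Finset ArithmeticFunction

namespace Pool.Agent.SX

theorem SIG (hSAD : SAD_stmt) (hABL : ABL_stmt) : SIG_stmt := by
  intro α κ hα hκ hLP h h' hh hh'
  have hmem := hSAD.2.1
  have hlog2 : 0 < Real.log 2 := Real.log_pos (by norm_num)
  have hhR : (180 : ℝ) ≤ h := by exact_mod_cast hh
  have hh0 : (0 : ℝ) < h := by linarith
  have hhR' : (h : ℝ) ≤ h' := by exact_mod_cast hh'
  have hh0' : (0 : ℝ) < h' := by linarith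
  obtain ⟨δ, hδ⟩ : ∃ δ : ℝ, δ = Real.log 2 / 10 := ⟨_, rfl⟩
  have hδ0 : 0 < δ := by rw [hδ]; positivity
  have hζ0 : 0 < h * δ := mul_pos hh0 hδ0
  have hZ0 : 0 < h' * δ := mul_pos hh0' hδ0
  have hbd : ∀ i ∈ Bl h h', (0 : ℝ) < i ∧ 0 < Real.log i ∧ h * δ ≤ Real.log i ∧
      Real.log i ≤ h' * δ := by
    intro i hi
    obtain ⟨hp, h7, h1, h2⟩ := (hmem h h' i).1 hi
    have hi0 : (0 : ℝ) < i := by exact_mod_cast hp.pos
    have h3 : Real.log ((2 : ℝ) ^ h) ≤ Real.log ((i : ℝ) ^ 10) := by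
      apply Real.log_le_log (by positivity)
      exact_mod_cast h1
    have h4 : Real.log ((i : ℝ) ^ 10) ≤ Real.log ((2 : ℝ) ^ h') := by
      apply Real.log_le_log (by positivity)
      exact_mod_cast h2.le
    rw [Real.log_pow, Real.log_pow] at h3 h4
    push_cast at h3 h4
    refine ⟨hi0, Real.log_pos (by exact_mod_cast hp.one_lt), ?_, ?_⟩
    · rw [hδ]
      linarith
    · rw [hδ]
      linarith
  have hw18 : (2 : ℝ) ^ 18 ≤ Real.exp (h * δ) := by
    have h5 : Real.log ((2 : ℝ) ^ 18) ≤ h * δ := by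
      rw [Real.log_pow, hδ]
      push_cast
      nlinarith
    calc (2 : ℝ) ^ 18 = Real.exp (Real.log ((2 : ℝ) ^ 18)) := (Real.exp_log (by positivity)).symm
      _ ≤ Real.exp (h * δ) := Real.exp_le_exp.2 h5
  have key := hABL (Bl h h') (fun p => Real.log p) (fun p => Real.log p / p) (h * δ) (h' * δ) α κ
    (fun s => 1 / s) (mul_le_mul_of_nonneg_right hhR' hδ0.le) hα hκ
    (by
      intro a ha b hb hab
      exact Real.log_lt_log (hbd a ha).1 (by exact_mod_cast hab))
    (fun i hi => ⟨(hbd i hi).2.2.1, (hbd i hi).2.2.2⟩)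
    (by
      intro a ha b hb hab
      exact one_div_le_one_div_of_le (lt_of_lt_of_le hζ0 ha.1) hab)
    (by
      intro s hs
      exact one_div_nonneg.2 (hζ0.le.trans hs.1))
    (by
      intro i hi
      obtain ⟨hi0, hli, h1, h2⟩ := hbd i hi
      have hwi : Real.exp (h * δ) ≤ i := by
        calc Real.exp (h * δ) ≤ Real.exp (Real.log i) := Real.exp_le_exp.2 h1
          _ = i := Real.exp_log hi0
      have h3 := hLP (Real.exp (h * δ)) i hw18 hwi
      rw [Real.log_div hi0.ne' (Real.exp_pos _).ne', Real.log_exp] at h3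
      refine le_trans ?_ h3
      apply Finset.sum_le_sum_of_subset_of_nonneg
      · intro j hj
        obtain ⟨hjF, hji⟩ := Finset.mem_filter.1 hj
        unfold pc
        rw [Finset.mem_filter, Finset.mem_range, Nat.floor_natCast]
        refine ⟨by omega, ((hmem h h' j).1 hjF).1, ?_⟩
        calc Real.exp (h * δ) ≤ Real.exp (Real.log j) := Real.exp_le_exp.2 (hbd j hjF).2.2.1
          _ = j := Real.exp_log (hbd j hjF).1
      · intro j _ _
        exact div_nonneg (Real.log_natCast_nonneg _) (Nat.cast_nonneg _))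
  have hint : (∫ s in (h * δ)..(h' * δ), 1 / s) = Real.log ((h' : ℝ) / h) := by
    rw [integral_one_div_of_pos hζ0 hZ0]
    congr 1
    field_simp
  have hζle : 1 / ((h : ℝ) * δ) ≤ 14.4269505 / h := by
    rw [div_le_div_iff₀ hζ0 hh0, hδ]
    have := Real.log_two_gt_d9
    nlinarith
  have hsum : sig h h' = 2 * ∑ i ∈ Bl h h', Real.log i / i * (1 / Real.log i) := by
    unfold sig
    rw [Finset.mul_sum]
    apply Finset.sum_congr rfl
    intro i hi
    obtain ⟨hi0, hli, _, _⟩ := hbd i hi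
    field_simp
  rw [hsum]
  apply mul_le_mul_of_nonneg_left _ (by norm_num : (0 : ℝ) ≤ 2)
  refine le_trans key ?_
  rw [hint]
  have := mul_le_mul_of_nonneg_left hζle hκ
  linarith

end Pool.Agent.SX
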